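import Pool.Agent.H8.VR.Targets

/-!
# Counting structures exist
-/

set_option autoImplicit false

namespace Pool.Agent.H19.VR

open Pool.Agent.H8.VR Pool.Agent.H69.Sp

/-- counting up to `K` and modulo `M + 1` -/
def KM (K M : ℕ) : Cp (Fin (K + 1) × Fin (M + 1)) where
  cp x := (⟨min x K, by omega⟩, ⟨x % (M + 1), Nat.mod_lt _ (by omega)⟩)
  ad a b := (⟨min (a.1.1 + b.1.1) K, by omega⟩, ⟨(a.2.1 + b.2.1) % (M + 1), Nat.mod_lt _ (by omega)⟩)
  cp_add x y := by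
    refine Prod.ext (Fin.ext ?_) (Fin.ext ?_)
    · change min (x + y) K = min (min x K + min y K) K
      omega
    · change (x + y) % (M + 1) = (x % (M + 1) + y % (M + 1)) % (M + 1)
      exact Nat.add_mod x y (M + 1)

theorem sep_ex (φ : C2) : ∃ K₀ M₀ : ℕ, 0 < M₀ ∧ ∀ K M, K₀ ≤ K → M₀ ∣ M + 1 → Sep (KM K M) φ := by
  induction φ with
  | un i v => exact ⟨0, 1, one_pos, fun _ _ _ _ => trivial⟩
  | bi i v w => exact ⟨0, 1, one_pos, fun _ _ _ _ => trivial⟩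
  | eq v w => exact ⟨0, 1, one_pos, fun _ _ _ _ => trivial⟩
  | neg φ ih =>
    obtain ⟨K₀, M₀, h0, h⟩ := ih
    exact ⟨K₀, M₀, h0, h⟩
  | and φ ψ ih1 ih2 =>
    obtain ⟨K₁, M₁, h1, h1'⟩ := ih1
    obtain ⟨K₂, M₂, h2, h2'⟩ := ih2
    exact ⟨max K₁ K₂, M₁ * M₂, Nat.mul_pos h1 h2, fun K M hK hM =>
      ⟨h1' K M (le_trans (le_max_left _ _) hK) (dvd_trans (dvd_mul_right _ _) hM),
        h2' K M (le_trans (le_max_right _ _) hK) (dvd_trans (dvd_mul_left _ _) hM)⟩⟩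
  | cnt k m r v φ ih =>
    obtain ⟨K₀, M₀, h0, h⟩ := ih
    rcases Nat.eq_zero_or_pos m with hm | hm
    · subst hm
      refine ⟨max K₀ (max k (r + 1)), M₀, h0, fun K M hK hM => ⟨⟨fun u => k ≤ u.1.1 ∧ u.1.1 = r, ?_⟩,
        h K M (le_trans (le_max_left _ _) hK) hM⟩⟩
      intro c
      have hk : k ≤ K := le_trans (le_trans (le_max_left _ _) (le_max_right _ _)) hK
      have hr : r + 1 ≤ K := le_trans (le_trans (le_max_right _ _) (le_max_right _ _)) hK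
      have h3 : c ≡ r [MOD 0] ↔ c = r := by
        unfold Nat.ModEq
        rw [Nat.mod_zero, Nat.mod_zero]
      rw [h3]
      change (k ≤ c ∧ c = r) ↔ (k ≤ min c K ∧ min c K = r)
      omega
    · refine ⟨max K₀ k, M₀ * m, Nat.mul_pos h0 hm, fun K M hK hM =>
        ⟨⟨fun u => k ≤ u.1.1 ∧ u.2.1 ≡ r [MOD m], ?_⟩,
        h K M (le_trans (le_max_left _ _) hK) (dvd_trans (dvd_mul_right _ _) hM)⟩⟩
      intro c
      have hk : k ≤ K := le_trans (le_max_right _ _) hK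
      have hd : m ∣ M + 1 := dvd_trans (dvd_mul_left _ _) hM
      change (k ≤ c ∧ c ≡ r [MOD m]) ↔ (k ≤ min c K ∧ c % (M + 1) ≡ r [MOD m])
      have h4 : c % (M + 1) ≡ r [MOD m] ↔ c ≡ r [MOD m] := by
        unfold Nat.ModEq
        rw [Nat.mod_mod_of_dvd c hd]
      rw [h4]
      have h5 : k ≤ c ↔ k ≤ min c K := by omega
      rw [h5]

theorem pf_cp : T_CP := by
  intro φ
  obtain ⟨K₀, M₀, h0, h⟩ := sep_ex φ.clo
  have hM : M₀ ∣ (M₀ - 1) + 1 := by rw [Nat.sub_add_cancel h0]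
  refine ⟨Fin (K₀ + 1) × Fin (M₀ - 1 + 1), inferInstance, KM K₀ (M₀ - 1), h K₀ (M₀ - 1) le_rfl hM,
    fun x u => ?_⟩
  have h1 : UltPer {n | (KM K₀ (M₀ - 1)).cp n = u} := by
    refine ⟨K₀, M₀ - 1 + 1, by omega, fun n hn => ?_⟩
    rw [Set.mem_ofPred_eq, Set.mem_ofPred_eq]
    have h2 : (KM K₀ (M₀ - 1)).cp (n + (M₀ - 1 + 1)) = (KM K₀ (M₀ - 1)).cp n := by
      refine Prod.ext (Fin.ext ?_) (Fin.ext ?_)
      · change min (n + (M₀ - 1 + 1)) K₀ = min n K₀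
        omega
      · change (n + (M₀ - 1 + 1)) % (M₀ - 1 + 1) = n % (M₀ - 1 + 1)
        exact Nat.add_mod_right n _
    rw [h2]
  exact h1.fd x

end Pool.Agent.H19.VR
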