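import Pool.Agent.H8.VR.Targets

/-!
# Correct bits compute the truth values; relevant relations
-/

set_option autoImplicit false

namespace Pool.Agent.H19.VR

open Pool.Agent.H8.VR

theorem upd_bool {A : Type} (s : Bool → A) (v : Bool) (b : A) :
    Function.update s v b = fun x => if x = v then b else s (!v) := by
  funext x
  by_cases hx : x = v
  · subst hx
    simp
  · have h1 : x = !v := by
      cases x <;> cases v <;> simp_all
    subst h1
    simp [Function.update]

theorem pf_ev : T_EV := by
  intro φ
  induction φ with
  | un i v => intro A P R g _ s; exact Iff.rfl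
  | bi i v w => intro A P R g _ s; exact Iff.rfl
  | eq v w => intro A P R g _ s; exact Iff.rfl
  | neg φ ih =>
    intro A P R g hg s
    have h1 := ih A P R g hg s
    exact not_congr h1
  | and φ ψ ihφ ihψ =>
    intro A P R g hg s
    exact and_congr (ihφ A P R (fun a => (g a).1) hg.1 s) (ihψ A P R (fun a => (g a).2) hg.2 s)
  | cnt k m r v φ ih =>
    intro A P R g hg s
    have h1 := hg.2 (s (!v))
    have h2 : {a | φ.Sat P R (Function.update s v a)} =
        {b | φ.evA P R (fun c => (g c).2) (fun x => if x = v then b else s (!v))} := by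
      ext b
      rw [Set.mem_ofPred_eq, Set.mem_ofPred_eq, upd_bool]
      exact ih A P R (fun c => (g c).2) hg.1 _
    have h3 : (C2.cnt k m r v φ).Sat P R s ↔
        k ≤ {a | φ.Sat P R (Function.update s v a)}.ncard ∧
        {a | φ.Sat P R (Function.update s v a)}.ncard ≡ r [MOD m] := Iff.rfl
    rw [h3, h2]
    exact h1.symm

theorem pf_sc : T_SC := by
  intro φ A P P' R R'
  induction φ with
  | un i v => intro hP hR s; exact hP i (by simp [C2.bd]) _
  | bi i v w => intro hP hR s; exact hR i (by simp [C2.bd]) _ _
  | eq v w => intro hP hR s; exact Iff.rfl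
  | neg φ ih => intro hP hR s; exact not_congr (ih hP hR s)
  | and φ ψ ih1 ih2 =>
    intro hP hR s
    exact and_congr
      (ih1 (fun i hi => hP i (lt_of_lt_of_le hi (le_max_left _ _)))
        (fun i hi => hR i (lt_of_lt_of_le hi (le_max_left _ _))) s)
      (ih2 (fun i hi => hP i (lt_of_lt_of_le hi (le_max_right _ _)))
        (fun i hi => hR i (lt_of_lt_of_le hi (le_max_right _ _))) s)
  | cnt k m r v φ ih =>
    intro hP hR s
    have h : {a | φ.Sat P R (Function.update s v a)} =
        {a | φ.Sat P' R' (Function.update s v a)} := by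
      ext a
      rw [Set.mem_ofPred_eq, Set.mem_ofPred_eq]
      exact ih hP hR _
    change (k ≤ _ ∧ _) ↔ (k ≤ _ ∧ _)
    rw [h]

end Pool.Agent.H19.VR
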