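import Pool.Agent.H8.VR.Targets

/-!
# The theorem for composition systems
-/

set_option autoImplicit false

namespace Pool.Agent.H19.VR

open Pool.Agent.H8.VR Pool.Agent.H69.Sp Pool.Agent.H69.Mt

theorem exists_enum (ι : Type) [Fintype ι] [Nonempty ι] : ∃ k, Nonempty (Enum ι k) := by
  classical
  obtain ⟨d⟩ := ‹Nonempty ι›
  let e := Fintype.equivFin ι
  refine ⟨Fintype.card ι, ⟨⟨fun j => if h : j < Fintype.card ι then e.symm ⟨j, h⟩ else d,
    fun σ => (e σ).1, fun σ => (e σ).2, fun σ => ?_, fun j hj => ?_⟩⟩⟩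
  · change (if h : (e σ).1 < Fintype.card ι then e.symm ⟨(e σ).1, h⟩ else d) = σ
    rw [dif_pos (e σ).2]
    exact e.symm_apply_apply σ
  · change (e (if h : j < Fintype.card ι then e.symm ⟨j, h⟩ else d)).1 = j
    rw [dif_pos hj, e.apply_symm_apply]

section
variable {ι : Type} {k : ℕ} (e : Enum ι k)

theorem ls_inj {c c' : ι → ℕ} (h : ls k e.en c = ls k e.en c') : c = c' := by
  funext σ
  unfold ls at h
  rw [List.map_inj_left] at h
  have h1 := h (e.ix σ) (List.mem_range.2 (e.ix_lt σ))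
  rwa [e.en_ix] at h1

theorem ls_length (c : ι → ℕ) : (ls k e.en c).length = k := by
  unfold ls
  rw [List.length_map, List.length_range]

/-- the code of two relations -/
def EC {N O : Type} (iN : N → ℕ) (iO : O → ℕ) (F : N → (ι → ℕ) → Prop)
    (J : O → (ι → ℕ) → (ι → ℕ) → (ι → ℕ) → Prop) (i : ℕ) (l : List ℕ) : Prop :=
  (∃ s c, i = 2 * iN s ∧ l = ls k e.en c ∧ F s c) ∨
    ∃ o a b d, i = 2 * iO o + 1 ∧ l = ls k e.en a ++ ls k e.en b ++ ls k e.en d ∧ J o a b d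

theorem FE_EC {N O : Type} {iN : N → ℕ} (hN : Function.Injective iN) (iO : O → ℕ)
    (F : N → (ι → ℕ) → Prop) (J : O → (ι → ℕ) → (ι → ℕ) → (ι → ℕ) → Prop) :
    FE iN e (EC e iN iO F J) = F := by
  funext s c
  refine propext ⟨?_, fun h => Or.inl ⟨s, c, rfl, rfl, h⟩⟩
  rintro (⟨s', c', h1, h2, h3⟩ | ⟨o, a, b, d, h1, _⟩)
  · have h4 : s = s' := hN (by omega)
    have h5 := ls_inj e h2
    rw [h4, h5]
    exact h3
  · omega

theorem JE_EC {N O : Type} (iN : N → ℕ) {iO : O → ℕ} (hO : Function.Injective iO)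
    (F : N → (ι → ℕ) → Prop) (J : O → (ι → ℕ) → (ι → ℕ) → (ι → ℕ) → Prop) :
    JE iO e (EC e iN iO F J) = J := by
  funext o a b d
  refine propext ⟨?_, fun h => Or.inr ⟨o, a, b, d, rfl, rfl, h⟩⟩
  rintro (⟨s', c', h1, _⟩ | ⟨o', a', b', d', h1, h2, h3⟩)
  · omega
  · have h4 : o = o' := hO (by omega)
    obtain ⟨h5, h6⟩ := List.append_inj h2 (by
      rw [List.length_append, List.length_append, ls_length, ls_length, ls_length, ls_length])
    obtain ⟨h7, h8⟩ := List.append_inj h5 (by rw [ls_length, ls_length])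
    rw [h4, ls_inj e h7, ls_inj e h8, ls_inj e h6]
    exact h3

end

theorem pair_lt {n x y : ℕ} (hn : 2 ≤ n) (h : x + y ≤ n) : Nat.pair x y < n ^ 8 := by
  have h1 : Nat.pair x y < (max x y + 1) ^ 2 := Nat.pair_lt_max_add_one_sq x y
  have h2 : max x y + 1 ≤ n * n := by
    have : max x y ≤ n := by omega
    nlinarith
  have h3 : n * n ≤ n ^ 4 := by
    calc n * n = n ^ 2 := by ring
      _ ≤ n ^ 4 := Nat.pow_le_pow_right (by omega) (by norm_num)
  calc Nat.pair x y < (max x y + 1) ^ 2 := h1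
    _ ≤ (n ^ 4) ^ 2 := Nat.pow_le_pow_left (h2.trans h3) 2
    _ = n ^ 8 := by ring

theorem pair_pos {x y : ℕ} (hx : 0 < x) : 0 < Nat.pair x y := by
  have := Nat.left_le_pair x y
  omega

theorem self_lt {n : ℕ} (hn : 2 ≤ n) : n < n ^ 8 := by
  calc n = n ^ 1 := (pow_one n).symm
    _ < n ^ 8 := Nat.pow_lt_pow_right (by omega) (by norm_num)

theorem spec_empty : IsSpectrum {n : ℕ | 0 < n ∧ False} :=
  UltPer.isSpectrum (T := {n : ℕ | False}) ⟨0, 1, one_pos, fun _ _ => Iff.rfl⟩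

theorem spec_univ : IsSpectrum {n : ℕ | 0 < n ∧ ¬ False} :=
  UltPer.isSpectrum (T := {n : ℕ | ¬ False}) ⟨0, 1, one_pos, fun _ _ => Iff.rfl⟩

theorem pf_sy (hRC : T_RC) (hRS : T_RS) (hIN : T_IN) (hMM : T_MM) (hFC : T_FC) (hFS : T_FS)
    (hFA : T_FA) (hTT : T_TT) : T_SY := by
  intro N Q L T O C _ _ _ _ _ _ _ S K s₀ Ok hcp hD
  classical
  rcases isEmpty_or_nonempty (Ix Q L T C) with hI | hI
  · -- no indices
    have h1 : ∀ n, 0 < n → ¬ SysMem S K s₀ Ok n := by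
      rintro n hn ⟨lam, th, c, _⟩
      exact hI.false (c ⟨0, hn⟩, (lam ⟨0, hn⟩, fun _ => K.cp 0))
    have e1 : {n | 0 < n ∧ SysMem S K s₀ Ok n} = {n : ℕ | 0 < n ∧ False} := by
      ext n
      exact ⟨fun h => ⟨h.1, h1 n h.1 h.2⟩, fun h => h.2.elim⟩
    have e2 : {n | 0 < n ∧ ¬ SysMem S K s₀ Ok n} = {n : ℕ | 0 < n ∧ ¬ False} := by
      ext n
      exact ⟨fun h => ⟨h.1, id⟩, fun h => ⟨h.1, h1 n h.1⟩⟩
    rw [e1, e2]
    exact ⟨spec_empty, spec_univ⟩
  · obtain ⟨k, ⟨e⟩⟩ := exists_enum (Ix Q L T C)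
    obtain ⟨iN, hiN⟩ : ∃ f : N → ℕ, Function.Injective f := by
      obtain ⟨n, ⟨f⟩⟩ := Finite.exists_equiv_fin N
      exact ⟨fun x => (f x).1, fun a b h => f.injective (Fin.ext h)⟩
    obtain ⟨iO, hiO⟩ : ∃ f : O → ℕ, Function.Injective f := by
      obtain ⟨n, ⟨f⟩⟩ := Finite.exists_equiv_fin O
      exact ⟨fun x => (f x).1, fun a b h => f.injective (Fin.ext h)⟩
    have fc := hFC N Q L T O C S K iN iO k e hcp (fun o => (hD o).2)
    have fs' := hFS N Q L T O C S K iN iO k e hcp (fun o => (hD o).1)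
    have fa := hFA N Q L T C iN k e s₀ Ok
    have hle : ∀ (c : Ix Q L T C → ℕ) (σ : Ix Q L T C), c σ ≤ tot c :=
      (hTT N Q L T O C S K).2.2.2.2
    have hLt : ∀ (n : ℕ) (c : Ix Q L T C → ℕ), 2 ≤ n → tot c = n → Lt (n ^ 8) c := by
      intro n c hn h σ
      have h1 := hle c σ
      have h2 := self_lt hn
      omega
    have hmm := hMM N Q L T O C S K s₀ Ok
    refine ⟨wrap (fs'.and fa.ed) (fun h => absurd h.1 (lt_irrefl 0)) fun n hn => ?_,
      wrap (fc.and fa.not.ed) (fun h => absurd h.1 (lt_irrefl 0)) fun n hn => ?_⟩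
    · simp only [Function.update_self]
      constructor
      · rintro ⟨_, h⟩
        obtain ⟨c, hc1, hc2, hc3⟩ := (hmm n).1 h
        refine ⟨EC e iN iO (fun s c => RF S K s c ∧ tot c ≤ n)
          (fun o a b d => RJ S K o a b d ∧ tot a + tot b + tot d ≤ n), ?_, ?_⟩
        · rw [FE_EC e hiN, JE_EC e iN hiO]
          have h1 := hRS N Q L T O C S K (n ^ 8) n (self_lt hn)
          refine ⟨h1.1, fun o a b d ha hb hd hJ => ?_⟩
          rcases h1.2 o a b d ha hb hd hJ with h2 | h2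
          · obtain ⟨x1, x2, x3, x4, x5, x6, x7⟩ := h2
            exact Or.inl ⟨x1, x2, x3, x4, x5, x6, _, pair_lt hn x6, rfl, x7⟩
          · exact Or.inr h2
        · rw [FE_EC e hiN]
          exact ⟨c, hLt n c hn hc2, ⟨hc1, hc2.le⟩, hc2, hc3⟩
      · rintro ⟨E, h1, c, hc1, hc2, hc3, hc4⟩
        refine ⟨by omega, (hmm n).2 ⟨c, ?_, hc3, hc4⟩⟩
        refine hIN N Q L T O C S K (n ^ 8) n _ (fun o x y => Nat.pair x y ∉ S.D o)
          (RF S K) (FE iN e E) (RJ S K) (JE iO e E) ?_ h1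
          (hRC N Q L T O C S K (n ^ 8) n) s₀ c hc1 hc2
        rintro o x y _ _ _ ⟨z, _, hz, hz'⟩ h3
        rw [hz] at hz'
        exact h3 hz'
    · simp only [Function.update_self]
      constructor
      · rintro ⟨_, h⟩
        refine ⟨EC e iN iO (RF S K) (RJ S K), ?_, ?_⟩
        · rw [FE_EC e hiN, JE_EC e iN hiO]
          have h1 := hRC N Q L T O C S K (n ^ 8) n
          refine ⟨h1.1, fun o a b d ha hb hd hd0 hF hF' ha0 hb0 hn' => ?_, h1.2.2⟩
          rcases h1.2.1 o a b d ha hb hd hd0 hF hF' ha0 hb0 hn' with h2 | h2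
          · exact Or.inl ⟨_, pair_lt hn hn', rfl, pair_pos ha0, h2⟩
          · exact Or.inr h2
        · rw [FE_EC e hiN]
          rintro ⟨c, _, hc2, hc3, hc4⟩
          exact h ((hmm n).2 ⟨c, hc2, hc3, hc4⟩)
      · rintro ⟨E, h1, h2⟩
        refine ⟨by omega, fun h => h2 ?_⟩
        obtain ⟨c, hc1, hc2, hc3⟩ := (hmm n).1 h
        refine ⟨c, hLt n c hn hc2, ?_, hc2, hc3⟩
        refine hIN N Q L T O C S K (n ^ 8) n (fun o x y => Nat.pair x y ∈ S.D o) _
          (FE iN e E) (fun s c => RF S K s c ∧ tot c ≤ n) (JE iO e E)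
          (fun o a b d => RJ S K o a b d ∧ tot a + tot b + tot d ≤ n) ?_
          (hRS N Q L T O C S K (n ^ 8) n (self_lt hn)) h1 s₀ c (hLt n c hn hc2) ⟨hc1, hc2.le⟩
        rintro o x y _ _ _ h3 ⟨z, _, hz, hz'⟩
        rw [hz] at hz'
        exact hz'.2 h3

end Pool.Agent.H19.VR
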